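import Pool.Agent.Lib.MP_1a91b9_nuT.Rq.Fx

/-!
# Rg: the complex numbers fixed by all the automorphisms over `K` are in `K`
-/

set_option autoImplicit false

namespace Pool.Agent.Lib.MP_1a91b9_nuT.Rg

variable [CD]

open NumberField Polynomial
open Pool.Agent.Lib.MP_1a91b9_nuT.Rq (Fix)

theorem mem_K {z : ℂ} (h : ∀ τ : ℂ ≃+* ℂ, Fix τ → τ z = z) : ∃ x : K, embK x = z := by
  by_cases hz : IsAlgebraic ℚ z
  · exact Rq.mem_K hz h
  exfalso
  have hzK : ¬ IsAlgebraic K z := fun hh => hz (hh.restrictScalars ℚ)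
  have hz1 : ¬ IsAlgebraic K (z + 1) := fun hh => hzK (by
    have h1 := hh.sub (isAlgebraic_one (R := K) (A := ℂ))
    rwa [add_sub_cancel_right] at h1)
  have inj : ∀ w : ℂ, ¬ IsAlgebraic K w →
      Function.Injective ((aeval w : K[X] →ₐ[K] ℂ) : K[X] →+* ℂ) := by
    intro w hw
    exact transcendental_iff_injective.1 hw
  have hK : Countable K := Rq.FX2_countable
  have hR : Countable (FractionRing K[X]) := by
    have h1 : Countable K[X] := by
      have h2 := Polynomial.cardinalMk_le_max (R := K)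
      rw [← Cardinal.mk_le_aleph0_iff]
      exact h2.trans (max_le Cardinal.mk_le_aleph0 le_rfl)
    have h2 : Function.Surjective (fun p : K[X] × nonZeroDivisors K[X] =>
        IsLocalization.mk' (FractionRing K[X]) p.1 p.2) := by
      intro y
      obtain ⟨x, s, hxs⟩ := IsLocalization.exists_mk'_eq (nonZeroDivisors K[X]) y
      exact ⟨(x, s), hxs⟩
    exact h2.countable
  obtain ⟨τ, hτ⟩ := Rq.aut_ext (IsFractionRing.lift (inj z hzK) : FractionRing K[X] →+* ℂ)
    (IsFractionRing.lift (inj (z + 1) hz1))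
  have h1 : Fix τ := by
    have h2 := hτ (algebraMap K[X] (FractionRing K[X]) (C om))
    rw [IsFractionRing.lift_algebraMap, IsFractionRing.lift_algebraMap] at h2
    have e : ∀ w : ℂ, ((aeval w : K[X] →ₐ[K] ℂ) : K[X] →+* ℂ) (C om) = zt := by
      intro w
      change aeval w (C om) = zt
      rw [aeval_C, algebraMap_eq, embK_om]
    rw [e, e] at h2
    exact h2
  have h3 : τ z = z + 1 := by
    have h2 := hτ (algebraMap K[X] (FractionRing K[X]) X)
    rw [IsFractionRing.lift_algebraMap, IsFractionRing.lift_algebraMap] at h2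
    have e : ∀ w : ℂ, ((aeval w : K[X] →ₐ[K] ℂ) : K[X] →+* ℂ) X = w := by
      intro w
      change aeval w (X : K[X]) = w
      rw [aeval_X]
    rw [e, e] at h2
    exact h2
  rw [h τ h1] at h3
  exact one_ne_zero (left_eq_add.1 h3)

end Pool.Agent.Lib.MP_1a91b9_nuT.Rg
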