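import Pool.Agent.Lib.MP_1a91b9_nuT.BaseK

/-!
# Rg: an auxiliary prime number
-/

set_option autoImplicit false

namespace Pool.Agent.Lib.MP_1a91b9_nuT.Rg

variable [CD]

open NumberField

universe u

/-- An auxiliary prime number. -/
theorem exists_q (f : 𝓞 K) (hf : f ≠ 0) (n : ℕ) (hn : 0 < n) :
    ∃ q : ℕ, q.Prime ∧ q ≠ 3 ∧ IsCoprime (2 : 𝓞 K) (q : 𝓞 K) ∧
      IsCoprime ((2 : 𝓞 K) ^ n - 1) (q : 𝓞 K) ∧ IsCoprime f (q : 𝓞 K) := by
  obtain ⟨N, hN⟩ : ∃ N : ℕ, N = Ideal.absNorm (Ideal.span {f}) := ⟨_, rfl⟩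
  have hN0 : 0 < N := by
    rw [hN, Nat.pos_iff_ne_zero, Ne, Ideal.absNorm_eq_zero_iff, Ideal.span_singleton_eq_bot]
    exact hf
  have h2n : 0 < 2 ^ n - 1 := by
    have : 2 ^ 1 ≤ 2 ^ n := Nat.pow_le_pow_right (by norm_num) hn
    omega
  obtain ⟨q, hq, hqp⟩ := Nat.exists_infinite_primes (6 * (2 ^ n - 1) * N + 1)
  have hpos : 0 < 6 * (2 ^ n - 1) * N := by positivity
  have hcop : ∀ k : ℕ, k ∣ 6 * (2 ^ n - 1) * N → k.Coprime q := by
    intro k hk
    refine Nat.Coprime.coprime_dvd_left hk ?_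
    rw [Nat.coprime_comm, Nat.Prime.coprime_iff_not_dvd hqp]
    intro h
    have := Nat.le_of_dvd hpos h
    omega
  refine ⟨q, hqp, ?_, ?_, ?_, ?_⟩
  · rintro rfl
    have := hcop 3 (by
      rw [mul_assoc]
      exact Dvd.dvd.mul_right (by norm_num) _)
    norm_num at this
  · have h := Nat.Coprime.cast (R := 𝓞 K) (hcop 2 (by
      rw [mul_assoc]
      exact Dvd.dvd.mul_right (by norm_num) _))
    exact_mod_cast h
  · have h := Nat.Coprime.cast (R := 𝓞 K) (hcop (2 ^ n - 1) ((Dvd.intro_left 6 rfl).mul_right _))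
    rw [Nat.cast_sub Nat.one_le_two_pow] at h
    exact_mod_cast h
  · have h := Nat.Coprime.cast (R := 𝓞 K) (hcop N (Dvd.intro_left _ rfl))
    refine h.of_isCoprime_of_dvd_left ?_
    rw [← Ideal.mem_span_singleton, hN]
    exact Ideal.absNorm_mem _

variable {F : Type u} [Field F] [NumberField F] [Algebra K F]


end Pool.Agent.Lib.MP_1a91b9_nuT.Rg
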