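import Pool.Agent.Lib.MP_1a91b9_nuT.Rq.De
import Pool.Agent.Lib.MP_1a91b9_nuT.Rg.Act
import Pool.Agent.Lib.MP_1a91b9_nuT.Rq.Ix
import Pool.Agent.Lib.MP_1a91b9_nuG.Psi

/-!
# Rg: the smoothed indicator function is invariant under `z ↦ χ z`, `χ ≡ 1 mod f`
-/

set_option autoImplicit false

namespace Pool.Agent.Lib.MP_1a91b9_nuT.Rg

variable [CD]

open NumberField

universe u

variable {F : Type u} [Field F] [NumberField F] [Algebra K F]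


/-- Every finite set of elements has a common denominator for a nonzero ideal. -/
theorem de_den (𝔟 : Ideal (𝓞 F)) (hb : 𝔟 ≠ ⊥) (r β β' : 𝓞 F) (hr : r ≠ 0) (hβ : β ≠ 0)
    (hβ' : β' ≠ 0) (Z : Finset F) : ∃ M : ℕ, 0 < M ∧ r ∣ (M : 𝓞 F) ∧
      ∀ z ∈ Z, ∃ y ∈ 𝔟, (M : F) * z = (r : F) * (β : F) * (β' : F) * (y : F) := by
  obtain ⟨M, hM, -, h⟩ := Rq.de_den 𝔟 hb β β' hβ hβ' Z
  obtain ⟨N, hN⟩ : ∃ N : ℕ, N = Ideal.absNorm (Ideal.span {r}) := ⟨_, rfl⟩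
  have hN0 : 0 < N := by
    rw [hN, Nat.pos_iff_ne_zero, Ne, Ideal.absNorm_eq_zero_iff, Ideal.span_singleton_eq_bot]
    exact hr
  obtain ⟨r', hr'⟩ : r ∣ (N : 𝓞 F) := by
    rw [← Ideal.mem_span_singleton, hN]
    exact Ideal.absNorm_mem _
  refine ⟨N * M, Nat.mul_pos hN0 hM, ⟨r' * (M : 𝓞 F), ?_⟩, fun z hz => ?_⟩
  · push_cast
    rw [hr']
    ring
  · obtain ⟨y, hy, hyz⟩ := h z hz
    refine ⟨r' * (((3 : ℕ) : 𝓞 F) * y), 𝔟.mul_mem_left _ (𝔟.mul_mem_left _ hy), ?_⟩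
    have h1 : (N : F) = (r : F) * (r' : F) := by
      rw [← de2_mul, ← hr', de2_nat]
    rw [de2_mul, de2_mul, de2_nat]
    push_cast
    rw [h1]
    linear_combination (r : F) * (r' : F) * hyz

end Pool.Agent.Lib.MP_1a91b9_nuT.Rg
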